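import Pool.Agent.U553.HY.Defs
import Pool.Agent.Results.MP_03df5c_nt.AlmostAllArguments

/-!
# MP_03df5c_nt: relations between real multiple zeta values hold `p`-adically off a bounded number of hyperplanes of arguments

A pattern in `k` variables is a nonempty list of letters `b + u_1 s_1 + ... + u_k s_k`; at a tuple `s` of natural numbers
it gives an index. The first letters may be constant, of arbitrary weight, such as in `ζ(5, 1, s_1, 3, s_1 + s_2)`, and all
letters may be constant. A family `Z` is a function from the indices to a commutative `ℚ`-algebra with the stuffle product, for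
example the `p`-adic multiple zeta values for a prime `p`. The tuple `s` is bad for `Z` (and `D`, `H`) if a polynomial relation
of degree at most `D` with integer coefficients at most `H` between the real multiple zeta values of the patterns at `s` fails
for `Z`. We consider the tuples `s` with `2 ≤ s_j ≤ κ N` such that in each of the patterns the first letter which is not constant
is at least `N`; the other letters may be small, constant or of intermediate size.

Theorem. (1) The tuples in this range which are bad for `D` and `H = C ^ N`, for one of the families `Z` for which all the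
relations between the real multiple zeta values of the (finitely many) fronts hold, lie on at most `K` hyperplanes
`∑ b_j s_j = c` with integral coefficients `|b_j| ≤ K`, for all large `N`, where `K` only depends on the patterns, `D` and `κ`.

(2) If all constant first letters of the patterns are equal and even, in each pattern, this holds unconditionally for all
families with `Z(2 m) = 0`, `m ≥ 1`: for all primes `p` at once.

(3) Conversely, let `Z` be a family in a domain, with `Z(s) ≠ 0` for all large odd `s` (this holds for the `p`-adic multiple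
zeta values). All polynomial relations between real multiple zeta values hold for `Z` (the question for `p`) if and only if for
all patterns, `D` and `κ` the bad tuples for `Z` lie on a bounded number of hyperplanes with bounded coefficients, as in (1).

The theorem `AlmostAllArguments` of this page (helper734) bounds the number of the bad tuples in `[N, κ N] ^ k` by
`K N ^ (k - 1)`. This says nothing about families with fewer than `N ^ (k - 1)` tuples, and all the variables have to be
large. The proof uses `Pool.Agent.U553.HY` (elimination between tuples in general position, `Pool.Agent.X90.DC` of the starting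
library) and, for the fronts and the converse, `AlmostAllArguments`.
-/

set_option autoImplicit false

namespace Pool.Agent.Results.MP_03df5c_nt.BadHyperplanes

open Pool.Agent.Results.MP_03df5c_nt.AlmostAllArguments
open Pool.Agent.U553.HY (Range OnHyperplanes largeFirst_of)

/-- There is `K` such that for all `C` and all sufficiently large `N` the tuples `s` with the property `E (C ^ N)` such that
`2 ≤ s_j ≤ κ N` and the first letters of the patterns `w_i` which are not constant are at least `N` lie on at most `K`
hyperplanes `∑ b_j s_j = c` with integers `c` and `b_j`, not all zero, `|b_j| ≤ K`. -/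
def OnFewHyperplanes {k r : ℕ} (w : Fin r → List (Letter k)) (κ : ℕ) (E : ℝ → (Fin k → ℕ) → Prop) : Prop :=
  ∃ K : ℕ, ∀ C : ℝ, ∃ N₀ : ℕ, ∀ N : ℕ, N₀ ≤ N → OnHyperplanes K {s : Fin k → ℕ | s ∈ Range w κ N ∧ E (C ^ N) s}

theorem OnFewHyperplanes.mono {k r κ : ℕ} {w : Fin r → List (Letter k)} {E E' : ℝ → (Fin k → ℕ) → Prop}
    (h : OnFewHyperplanes w κ E) (hE : ∀ H s, E' H s → E H s) : OnFewHyperplanes w κ E' := by
  obtain ⟨K, hK⟩ := h
  refine ⟨K, fun C => ?_⟩
  obtain ⟨N₀, hN⟩ := hK C
  exact ⟨N₀, fun N hN' => (hN N hN').mono fun s hs => ⟨hs.1, hE _ _ hs.2⟩⟩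

theorem OnFewHyperplanes.few {k r κ : ℕ} {w : Fin r → List (Letter k)} {E : ℝ → (Fin k → ℕ) → Prop}
    (h : OnFewHyperplanes w κ E) : Few κ E := by
  obtain ⟨K, hK⟩ := h
  refine ⟨K * (κ + 1) ^ (k - 1), fun C => ?_⟩
  obtain ⟨N₀, hN⟩ := hK C
  refine ⟨N₀ + 2, fun N hN' => ?_⟩
  refine OnHyperplanes.ncard (N := N) (κ := κ) (by omega) ((hN N (by omega)).mono ?_) fun s hs => hs.1
  rintro s ⟨h1, h2⟩
  exact ⟨⟨fun j => ⟨le_trans (by omega) (h1 j).1, (h1 j).2⟩, fun i => largeFirst_of (fun j => (h1 j).1) _⟩, h2⟩

/-- part (1) -/
theorem part1H {k r : ℕ} (w : Fin r → List (Letter k)) (hw : ∀ i, AdmissiblePattern (w i)) (D κ : ℕ) :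
    OnFewHyperplanes w κ (BadFor w D fun _ _ _ Z => Transfers (fronts w) Z) := by
  classical
  obtain ⟨K, hK⟩ := Pool.Agent.U553.HY.genH 0 k r D w (fun i => (hw i).2) (fronts w)
    (fun i q hq hne => ⟨hne, i, by rw [constantPart_eq]; exact hq⟩) κ
  refine ⟨K, fun C => ?_⟩
  obtain ⟨N₀, hN₀⟩ := hK C (fun i => i.elim0)
  refine ⟨N₀, fun N hN => ((hN₀ N hN).mono fun s hs => ?_)⟩
  obtain ⟨⟨h1, hb⟩, A, i1, i2, Z, hZ, hF, P, h2, h3, h4, h5⟩ := hs
  let τ : Fin r → Fin 0 ⊕ Fin r := Sum.inr
  have h6 : ∀ (B : Type) [CommRing B] (x : Fin 0 → B) (v : Fin r → B),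
      MvPolynomial.aeval (Sum.elim x v) (MvPolynomial.rename τ P) = MvPolynomial.aeval v P := by
    intro B _ x v
    rw [MvPolynomial.aeval_rename]
    rfl
  refine ⟨h1, fun i => (hb i).big, MvPolynomial.rename τ P, (MvPolynomial.totalDegree_rename_le _ _).trans h2,
    fun m => ?_, ?_, fun h => h5 ?_⟩
  · by_cases hm : ∃ u, Finsupp.mapDomain τ u = m
    · obtain ⟨u, rfl⟩ := hm
      rw [MvPolynomial.coeff_rename_mapDomain _ Sum.inr_injective]
      exact h3 u
    · rw [MvPolynomial.coeff_rename_eq_zero _ _ _ (fun u hu => absurd ⟨u, hu⟩ hm), Int.cast_zero, abs_zero]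
      exact (abs_nonneg _).trans (h3 0)
  · rw [h6]
    have h7 := MvPolynomial.aeval_algebraMap_apply (A := ℝ) ℂ (fun i => mzv (index s (w i))) P
    rw [h4, map_zero] at h7
    rw [← h7, mzv_fun]
    rfl
  · have h8 := h A (fun i => i.elim0) Z (rel_of w Z hF _ _) ((st_iff Z).1 hZ)
    rw [h6] at h8
    have h9 : ∀ i, Pool.Agent.X90.DB.ex Z (Pool.Agent.X90.DB.ix s (w i)) = Z (index s (w i)) :=
      fun i => Pool.Agent.X90.DB.ex_ne Z (index_ne s (hw i).1)
    simp only [h9] at h8
    exact h8

/-- part (2) -/
theorem part2H {k r : ℕ} (w : Fin r → List (Letter k)) (hw : ∀ i, AdmissiblePattern (w i))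
    (he : ∀ i, EvenFront (w i)) (D κ : ℕ) :
    OnFewHyperplanes w κ (BadFor w D fun _ _ _ Z => ∀ m, 1 ≤ m → Z [2 * m] = 0) := by
  refine (part1H w hw D κ).mono fun H s => ?_
  rintro ⟨A, i1, i2, Z, hZ, h0, hB⟩
  refine ⟨A, i1, i2, Z, hZ, ?_, hB⟩
  intro f hf
  rw [mzv_fun] at hf
  exact Pool.Agent.N734.MZ.even_transfer (fun u : {u : List ℕ // Admissible u ∧ u ∈ fronts w} => u.1)
    (fronts_even w he) Z ((st_iff Z).1 hZ) h0 f hf

/-- for all patterns, `D` and `κ` the tuples which are bad for `Z` lie on few hyperplanes -/
def BadOnHyperplanes {A : Type} [CommRing A] (Z : List ℕ → A) : Prop :=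
  ∀ (k r : ℕ) (w : Fin r → List (Letter k)), (∀ i, AdmissiblePattern (w i)) → ∀ D κ : ℕ,
    OnFewHyperplanes w κ fun H s => Bad w D H Z s

theorem transfers_mono {A : Type} [CommRing A] [Algebra ℚ A] (S : Set (List ℕ)) (Z : List ℕ → A)
    (h : Transfers Set.univ Z) : Transfers S Z := by
  intro f hf
  let ρ : {u : List ℕ // Admissible u ∧ u ∈ S} → {u : List ℕ // Admissible u ∧ u ∈ (Set.univ : Set (List ℕ))} :=
    fun u => ⟨u.1, u.2.1, trivial⟩
  have h1 := h (MvPolynomial.rename ρ f) (by
    rw [MvPolynomial.aeval_rename]
    exact hf)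
  rw [MvPolynomial.aeval_rename] at h1
  exact h1

/-- **Theorem.** (1) For admissible patterns `w_1, ..., w_r` in `k` variables and `D`, `κ` there is `K` such that for all
`C` and all large `N` the following tuples `s` lie on at most `K` hyperplanes `∑ b_j s_j = c` with integers `c` and `b_j`, not
all zero, `|b_j| ≤ K`: the tuples with `2 ≤ s_j ≤ κ N`, for which the first letters of the patterns which are not constant are
at least `N`, and which are bad, for the degree `D` and the height `C ^ N`, for one of the families `Z` with the stuffle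
product for which the relations between the real multiple zeta values of the fronts hold. (2) If the fronts are even, the same
holds for the families with `Z(2 m) = 0` for all `m ≥ 1`. (3) For a family `Z` with the stuffle product in a domain, with
`Z(s) ≠ 0` for all large odd `s`, all polynomial relations between real multiple zeta values hold for `Z` if and only if for
all patterns, `D`, `κ` the bad tuples for `Z` in this range lie on at most `K` such hyperplanes, for some `K` and all `C` and
all large `N`. -/
theorem result :
    (∀ (k r : ℕ) (w : Fin r → List (Letter k)), (∀ i, AdmissiblePattern (w i)) → ∀ D κ : ℕ,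
      OnFewHyperplanes w κ (BadFor w D fun _ _ _ Z => Transfers (fronts w) Z)) ∧
    (∀ (k r : ℕ) (w : Fin r → List (Letter k)), (∀ i, AdmissiblePattern (w i)) → (∀ i, EvenFront (w i)) →
      ∀ D κ : ℕ, OnFewHyperplanes w κ (BadFor w D fun _ _ _ Z => ∀ m, 1 ≤ m → Z [2 * m] = 0)) ∧
    ∀ (A : Type) [CommRing A] [IsDomain A] [Algebra ℚ A] (Z : List ℕ → A), HasStuffle Z →
      (∃ s₀, ∀ s, s₀ ≤ s → Odd s → Z [s] ≠ 0) → (Transfers Set.univ Z ↔ BadOnHyperplanes Z) := by
  refine ⟨fun k r w hw D κ => part1H w hw D κ, fun k r w hw he D κ => part2H w hw he D κ, ?_⟩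
  intro A _ _ _ Z hZ hs
  constructor
  · intro h k r w hw D κ
    refine (part1H w hw D κ).mono fun H s hB => ?_
    exact ⟨A, inferInstance, inferInstance, Z, hZ, transfers_mono _ Z h, hB⟩
  · intro h
    refine ((AlmostAllArguments.result.2.2 A Z hZ hs).1).2 ?_
    intro k r w hw D κ
    exact (h k r w hw D κ).few

end Pool.Agent.Results.MP_03df5c_nt.BadHyperplanes
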