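import Pool.Agent.Results.MP_03df5c_nt.BadHyperplanes

/-!
# MP_03df5c_nt: relations between real and `p`-adic multiple zeta values near the values of polynomials and of other
# dispersed sequences

A pattern in `k` variables is a nonempty list of letters `b + u_1 s_1 + ... + u_k s_k`; at a tuple `s` of natural numbers
it gives an index. The first letters may be constant. A family `Z` is a function from the indices to a commutative `ℚ`-algebra
with the stuffle product, for example the `p`-adic multiple zeta values for a prime `p`. The tuple `s` is bad for `Z` (and `D`,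
`H`) if a polynomial relation of degree at most `D` with integer coefficients at most `H` between the real multiple zeta values
of the patterns at `s` fails for `Z`. Real sequences `F_1, ..., F_k` are dispersed if for every nonzero integer vector `b` the
intervals of length two contain a bounded number of the `∑ b_j F_j(n)`; for example the values of real polynomials of which no
nontrivial integer combination is constant.

Theorem. (1) Let `F_1, ..., F_k` be dispersed. For all large `N` and ALL `W` there are at most `K (W + 1)` numbers `n` for which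
a tuple `s` near `F(n)`, `|s_j - F_j(n)| ≤ W`, in the range of the scale `N` (`2 ≤ s_j ≤ κ N`, and in each of the patterns the
first letter which is not constant is at least `N`) is bad for `D` and `H = C ^ N`, for one of the families `Z` for which the
relations between the real multiple zeta values of the (finitely many, constant) fronts hold; if the fronts are even
(`2a, ..., 2a`, or empty), for one of the families with `Z(2 m) = 0`, `m ≥ 1`, unconditionally: for one of the primes `p`.

(2) Conversely, let `Z` be a family in a domain, with `Z(s) ≠ 0` for all large odd `s` (this holds for the `p`-adic multiple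
zeta values), and let `G(1), G(2), …` be any sequence of odd natural numbers which tends to infinity, however sparse. Then the
following are equivalent: (a) all polynomial relations between real multiple zeta values hold for `Z` (the question for `p`);
(b) the conclusion of (1) holds for `Z`, for all patterns and all dispersed families; (c) for all patterns in one variable with
exactly one letter which is not constant, `s + b`, and all `B` there are arbitrarily large `n` for which all LINEAR relations
with integer coefficients at most `B` between the real multiple zeta values of the patterns at `s = G(n)` hold for `Z`.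

So for all primes `p` at once and for all but a bounded number of the `n` in `[X, κ X]` the relations of exponential height
between real multiple zeta values such as `ζ(n^2, n)`, `ζ(2, 2, n^2 + n, n)` or `ζ([√2 n], [√3 n])` hold `p`-adically. Such
one-parameter families have much less than `N ^ (k - 1)` members if `k ≥ 2`; so (1) does not follow from the number of the bad
tuples (`AlmostAllArguments`, helper734).
-/

set_option autoImplicit false

open Filter

namespace Pool.Agent.Results.MP_03df5c_nt.PolynomialArguments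

open Pool.Agent.Results.MP_03df5c_nt.AlmostAllArguments
open Pool.Agent.Results.MP_03df5c_nt.BadHyperplanes (OnFewHyperplanes part1H part2H transfers_mono)
open Pool.Agent.U553.HY (Range OnHyperplanes Dispersed)

/-- There is `K` such that for all `C`, all sufficiently large `N` and all `W` there are at most `K (W + 1)` numbers `n` for
which some tuple `s` with `|s_j - F_j(n)| ≤ W` and `2 ≤ s_j ≤ κ N`, such that the first letters of the patterns `w_i` which
are not constant are at least `N`, has the property `E (C ^ N)`. -/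
def FewNear {k r : ℕ} (w : Fin r → List (Letter k)) (κ : ℕ) (F : Fin k → ℕ → ℝ) (E : ℝ → (Fin k → ℕ) → Prop) : Prop :=
  ∃ K : ℕ, ∀ C : ℝ, ∃ N₀ : ℕ, ∀ N : ℕ, N₀ ≤ N → ∀ W : ℕ,
    {n : ℕ | ∃ s ∈ Range w κ N, (∀ j, |(s j : ℝ) - F j n| ≤ W) ∧ E (C ^ N) s}.encard ≤ (K * (W + 1) : ℕ)

theorem fewNear {k r κ : ℕ} {w : Fin r → List (Letter k)} {F : Fin k → ℕ → ℝ} (hF : Dispersed F)
    {E : ℝ → (Fin k → ℕ) → Prop} (h : OnFewHyperplanes w κ E) : FewNear w κ F E := by
  obtain ⟨K, hK⟩ := h
  obtain ⟨K', hK'⟩ := hF.few K
  refine ⟨K', fun C => ?_⟩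
  obtain ⟨N₀, hN₀⟩ := hK C
  refine ⟨N₀, fun N hN W => (Set.encard_le_encard ?_).trans (hK' _ (hN₀ N hN) W)⟩
  rintro n ⟨s, h1, h2, h3⟩
  exact ⟨s, ⟨h1, h3⟩, h2⟩

/-- statement (b) -/
def AlongDispersed {A : Type} [CommRing A] (Z : List ℕ → A) : Prop :=
  ∀ (k r : ℕ) (w : Fin r → List (Letter k)), (∀ i, AdmissiblePattern (w i)) → ∀ (D κ : ℕ) (F : Fin k → ℕ → ℝ),
    Dispersed F → FewNear w κ F fun H s => Bad w D H Z s

/-- statement (c), for the sequence `G` -/
def LinearAlong {A : Type} [CommRing A] (Z : List ℕ → A) (G : ℕ → ℕ) : Prop :=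
  ∀ (r : ℕ) (w : Fin r → List (Letter 1)), (∀ i, AdmissiblePattern (w i) ∧ OneLarge (w i)) → ∀ B n₁ : ℕ,
    ∃ n, n₁ ≤ n ∧ ∀ a : Fin r → ℤ, (∀ i, |a i| ≤ B) →
      ∑ i, (a i : ℝ) * mzv (index (fun _ => G n) (w i)) = 0 →
      ∑ i, (a i : A) * Z (index (fun _ => G n) (w i)) = 0

theorem c_to_large {A : Type} [CommRing A] (Z : List ℕ → A) (G : ℕ → ℕ) (hG : ∀ n, Odd (G n))
    (hG' : Tendsto G atTop atTop) (h : LinearAlong Z G) : OneLargeArgument Z := by
  intro r w hw B s₁
  obtain ⟨n₁, hn₁⟩ := eventually_atTop.1 (hG'.eventually_ge_atTop s₁)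
  obtain ⟨n, hn, h1⟩ := h r w hw B n₁
  exact ⟨G n, hn₁ n hn, hG n, h1⟩

theorem dispersed_id : Dispersed (fun (_ : Fin 1) (n : ℕ) => (n : ℝ)) := by
  have h := Pool.Agent.U553.HY.dispersed_poly (fun _ : Fin 1 => (Polynomial.X : Polynomial ℝ)) (fun b hb => by
    have hb0 : b 0 ≠ 0 := by
      intro h0
      apply hb
      funext i
      rw [Subsingleton.elim i 0, h0]
      rfl
    rw [Fin.sum_univ_one, Polynomial.natDegree_smul _ (by exact_mod_cast hb0), Polynomial.natDegree_X]
    exact one_pos)
  simpa using h

/-- the linear polynomial -/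
theorem lin_poly {r : ℕ} (a : Fin r → ℤ) (B : ℕ) (ha : ∀ i, |a i| ≤ B) (N : ℕ) (hN : 1 ≤ N) :
    ∃ P : MvPolynomial (Fin r) ℤ, P.totalDegree ≤ 1 ∧ (∀ m, |((P.coeff m : ℤ) : ℝ)| ≤ (B + 1 : ℝ) ^ N) ∧
      ∀ (A : Type) [CommRing A] (v : Fin r → A), MvPolynomial.aeval v P = ∑ i, (a i : A) * v i := by
  classical
  refine ⟨∑ i, MvPolynomial.C (a i) * MvPolynomial.X i, ?_, fun m => ?_, fun A _ v => ?_⟩
  · refine MvPolynomial.totalDegree_finsetSum_le fun i _ => ?_
    refine (MvPolynomial.totalDegree_mul _ _).trans ?_
    rw [MvPolynomial.totalDegree_C, zero_add]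
    exact (MvPolynomial.totalDegree_X _).le
  · rw [MvPolynomial.coeff_sum]
    simp only [MvPolynomial.coeff_C_mul, MvPolynomial.coeff_X]
    have hB1 : (B : ℝ) ≤ (B + 1 : ℝ) ^ N := by
      have h3 : (B + 1 : ℝ) ^ 1 ≤ (B + 1 : ℝ) ^ N :=
        pow_le_pow_right₀ (by have := Nat.cast_nonneg (α := ℝ) B; linarith) hN
      rw [pow_one] at h3
      linarith
    refine le_trans ?_ hB1
    by_cases hm : ∃ i, Finsupp.single i 1 = m
    · obtain ⟨i₀, rfl⟩ := hm
      have h4 : ∑ x, a x * (if Finsupp.single x 1 = Finsupp.single i₀ 1 then (1 : ℤ) else 0) = a i₀ := by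
        rw [Finset.sum_eq_single i₀]
        · rw [if_pos rfl, mul_one]
        · intro x _ hx
          rw [if_neg, mul_zero]
          intro h5
          exact hx ((Finsupp.single_left_inj one_ne_zero).1 h5)
        · intro h5
          exact absurd (Finset.mem_univ _) h5
      rw [h4]
      exact_mod_cast ha i₀
    · have h4 : ∑ x, a x * (if Finsupp.single x 1 = m then (1 : ℤ) else 0) = 0 := by
        refine Finset.sum_eq_zero fun x _ => ?_
        rw [if_neg fun h5 => hm ⟨x, h5⟩, mul_zero]
      rw [h4, Int.cast_zero, abs_zero]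
      exact Nat.cast_nonneg _
  · rw [map_sum]
    refine Finset.sum_congr rfl fun i _ => ?_
    rw [map_mul, MvPolynomial.aeval_C, MvPolynomial.aeval_X]
    rfl

theorem b_to_large {A : Type} [CommRing A] (Z : List ℕ → A) (h : AlongDispersed Z) : OneLargeArgument Z := by
  classical
  intro r w hw B s₁
  by_contra hcon
  push Not at hcon
  obtain ⟨K, hK⟩ := h 1 r w (fun i => (hw i).1) 1 4 _ dispersed_id
  obtain ⟨N₀, hN⟩ := hK (B + 1 : ℝ)
  set N := N₀ + s₁ + K + 2 with hNdef
  have h1 := hN N (by omega) 0
  let φ : ℕ → ℕ := fun i => 2 * (N + i) + 1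
  have hφ : Function.Injective φ := by
    intro i j hij
    simp only [φ] at hij
    omega
  have h2 : φ '' ((Finset.range (K + 1) : Finset ℕ) : Set ℕ) ⊆
      {n : ℕ | ∃ s ∈ Range w 4 N, (∀ j, |(s j : ℝ) - (fun (_ : Fin 1) (n : ℕ) => (n : ℝ)) j n| ≤ ((0 : ℕ) : ℝ)) ∧
        Bad w 1 ((B + 1 : ℝ) ^ N) Z s} := by
    rintro n ⟨i, hi, rfl⟩
    rw [Finset.mem_coe, Finset.mem_range] at hi
    have e1 : 2 ≤ 2 * (N + i) + 1 := by omega
    have e2 : 2 * (N + i) + 1 ≤ 4 * N := by omega
    have e3 : N ≤ 2 * (N + i) + 1 := by omega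
    refine ⟨fun _ => 2 * (N + i) + 1, ⟨fun j => ⟨e1, e2⟩, fun i' =>
      Pool.Agent.U553.HY.largeFirst_of (fun j => e3) _⟩, fun j => ?_, ?_⟩
    · simp only [φ]
      simp
    · obtain ⟨a, ha, hR, hA⟩ := hcon (2 * (N + i) + 1) (by omega) ⟨N + i, rfl⟩
      obtain ⟨P, hP1, hP2, hP3⟩ := lin_poly a B ha N (by omega)
      refine ⟨P, hP1, hP2, ?_, ?_⟩
      · rw [hP3]
        exact hR
      · rw [hP3]
        exact hA
  have h3 := (Set.encard_le_encard h2).trans h1
  rw [hφ.encard_image, Set.encard_coe_eq_coe_finsetCard, Finset.card_range] at h3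
  have h4 : K + 1 ≤ K * (0 + 1) := by exact_mod_cast h3
  omega

theorem adm_index {k : ℕ} {s : Fin k → ℕ} (hs : ∀ j, 2 ≤ s j) {w : List (Letter k)} (hw : AdmissiblePattern w) :
    Admissible (index s w) := by
  have key : ∀ u : Letter k, u.2 ≠ 0 → 2 ≤ u.1 + ∑ j, u.2 j * s j := by
    intro u hu
    obtain ⟨j, hj⟩ : ∃ j, u.2 j ≠ 0 := by
      by_contra h
      push Not at h
      exact hu (funext h)
    have h1 : u.2 j * s j ≤ ∑ j, u.2 j * s j :=
      Finset.single_le_sum (f := fun j => u.2 j * s j) (fun _ _ => Nat.zero_le _) (Finset.mem_univ j)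
    have h2 : s j ≤ u.2 j * s j := Nat.le_mul_of_pos_left _ (Nat.pos_of_ne_zero hj)
    have := hs j
    omega
  obtain ⟨h1, h2, h3⟩ := hw
  cases w with
  | nil => exact absurd rfl h1
  | cons u w =>
    refine ⟨?_, fun t ht => ?_⟩
    · rcases h2 u (by simp) with h | h
      · exact key u h
      · exact h.trans (Nat.le_add_right _ _)
    · rw [List.mem_map] at ht
      obtain ⟨v, hv, rfl⟩ := ht
      rcases h3 v (List.mem_cons_of_mem _ hv) with h | h
      · exact le_trans (by norm_num) (key v h)
      · exact h.trans (Nat.le_add_right _ _)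

theorem a_to_c {A : Type} [CommRing A] [Algebra ℚ A] (Z : List ℕ → A) (G : ℕ → ℕ)
    (hG' : Tendsto G atTop atTop) (h : Transfers Set.univ Z) : LinearAlong Z G := by
  classical
  intro r w hw B n₁
  obtain ⟨n₂, hn₂⟩ := eventually_atTop.1 (hG'.eventually_ge_atTop 2)
  refine ⟨n₁ + n₂, by omega, fun a _ h0 => ?_⟩
  set s : Fin 1 → ℕ := fun _ => G (n₁ + n₂) with hs
  have hs2 : ∀ j, 2 ≤ s j := fun _ => hn₂ _ (by omega)
  let g : Fin r → {u : List ℕ // Admissible u ∧ u ∈ (Set.univ : Set (List ℕ))} :=
    fun i => ⟨index s (w i), adm_index hs2 (hw i).1, trivial⟩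
  have key : ∀ (B : Type) [CommRing B] [Algebra ℚ B] (Y : List ℕ → B),
      MvPolynomial.aeval (fun u : {u : List ℕ // Admissible u ∧ u ∈ (Set.univ : Set (List ℕ))} => Y u.1)
        (∑ i, MvPolynomial.C (a i : ℚ) * MvPolynomial.X (g i)) = ∑ i, (a i : B) * Y (index s (w i)) := by
    intro B _ _ Y
    rw [map_sum]
    refine Finset.sum_congr rfl fun i _ => ?_
    rw [map_mul, MvPolynomial.aeval_C, MvPolynomial.aeval_X, map_intCast]
  have h1 := h (∑ i, MvPolynomial.C (a i : ℚ) * MvPolynomial.X (g i)) (by rw [key ℝ mzv]; exact h0)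
  rw [key A Z] at h1
  exact h1

/-- **Theorem.** (1) For admissible patterns `w_1, ..., w_r` in `k` variables, `D`, `κ` and a dispersed family of real
sequences `F_1, ..., F_k` there is `K` such that for all `C`, all large `N` and all `W` there are at most `K (W + 1)` numbers `n`
with the following property: there is a tuple `s`, `|s_j - F_j(n)| ≤ W`, `2 ≤ s_j ≤ κ N`, for which the first letters of the
patterns which are not constant are at least `N`, and which is bad, for the degree `D` and the height `C ^ N`, for one of the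
families `Z` with the stuffle product for which the relations between the real multiple zeta values of the fronts hold.
(2) If the fronts are even, the same holds for the families with `Z(2 m) = 0` for all `m ≥ 1`. (3) The values of real
polynomials of which no nontrivial integer combination is constant are a dispersed family. (4) For a family `Z` with the
stuffle product in a domain, with `Z(s) ≠ 0` for all large odd `s`, and a sequence `G` of odd numbers which tends to infinity,
the following are equivalent: all polynomial relations between real multiple zeta values hold for `Z`; the bad tuples for `Z`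
satisfy the bound of (1), for all patterns, `D`, `κ` and all dispersed families; for all patterns in one variable with exactly
one letter which is not constant, `s + b`, and all `B` there are arbitrarily large `n` for which all linear relations with
integer coefficients at most `B` between the real multiple zeta values of the patterns at `G(n)` hold for `Z`. -/
theorem result :
    (∀ (k r : ℕ) (w : Fin r → List (Letter k)), (∀ i, AdmissiblePattern (w i)) → ∀ (D κ : ℕ) (F : Fin k → ℕ → ℝ),
      Dispersed F → FewNear w κ F (BadFor w D fun _ _ _ Z => Transfers (fronts w) Z)) ∧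
    (∀ (k r : ℕ) (w : Fin r → List (Letter k)), (∀ i, AdmissiblePattern (w i)) → (∀ i, EvenFront (w i)) →
      ∀ (D κ : ℕ) (F : Fin k → ℕ → ℝ), Dispersed F →
        FewNear w κ F (BadFor w D fun _ _ _ Z => ∀ m, 1 ≤ m → Z [2 * m] = 0)) ∧
    (∀ (k : ℕ) (p : Fin k → Polynomial ℝ), (∀ b : Fin k → ℤ, b ≠ 0 → 0 < (∑ j, (b j : ℝ) • p j).natDegree) →
      Dispersed fun j n => (p j).eval (n : ℝ)) ∧
    ∀ (A : Type) [CommRing A] [IsDomain A] [Algebra ℚ A] (Z : List ℕ → A), HasStuffle Z →
      (∃ s₀, ∀ s, s₀ ≤ s → Odd s → Z [s] ≠ 0) → ∀ G : ℕ → ℕ, (∀ n, Odd (G n)) → Tendsto G atTop atTop →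
      (Transfers Set.univ Z ↔ AlongDispersed Z) ∧ (Transfers Set.univ Z ↔ LinearAlong Z G) := by
  refine ⟨fun k r w hw D κ F hF => fewNear hF (part1H w hw D κ),
    fun k r w hw he D κ F hF => fewNear hF (part2H w hw he D κ),
    fun k p hp => Pool.Agent.U553.HY.dispersed_poly p hp, ?_⟩
  intro A _ _ _ Z hZ hs G hG hG'
  have hback : OneLargeArgument Z → Transfers Set.univ Z := by
    obtain ⟨s₀, hne⟩ := hs
    exact c_to_a Z hZ s₀ hne
  refine ⟨⟨fun h k r w hw D κ F hF => ?_, fun h => hback (b_to_large Z h)⟩,
    ⟨fun h => a_to_c Z G hG' h, fun h => hback (c_to_large Z G hG hG' h)⟩⟩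
  refine fewNear hF ((part1H w hw D κ).mono fun H s hB => ?_)
  exact ⟨A, inferInstance, inferInstance, Z, hZ, transfers_mono _ Z h, hB⟩

end Pool.Agent.Results.MP_03df5c_nt.PolynomialArguments
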