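import Pool.Agent.U534.FreeSeq
import Pool.Agent.U553.LY.E
import Pool.Agent.Results.MP_03df5c_nt.AlmostAllArguments

/-!
# MP_03df5c_nt: every sequence of Lyndon indices outside of predictable exceptional sets, over any multiple zeta values

Order the letters `1, 2, 3, …` by `1 > 2 > 3 > …`. A Lyndon index is an index which comes before its proper suffixes in the
lexicographic order, for example every index whose first argument (it belongs to the largest variable) is larger than the
others. With the stuffle product the multiple zeta values of all indices are polynomials in those of the Lyndon indices.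

There are numbers `N_0, N_1, …`, which do not depend on anything, and for every sequence `u_0, u_1, …` of admissible indices, for
example an enumeration of ALL admissible indices, there are exceptional sets `E_j(w_0, …, w_(j-1))` of indices, which only
depend on the indices chosen before, such that at most `2 j` Lyndon indices with at most `j` arguments and first argument in
`[M, j M]` belong to `E_j`, for all `M ≥ N_j`, with the following property. Let `w` be ANY sequence of admissible Lyndon indices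
with `w_j ∉ E_j(w_0, …, w_(j-1))` for `j ≥ j₀`, and let `Z` be any function from the indices to a commutative `ℚ`-algebra such
that the relations between the real multiple zeta values of `u_0, …, u_(i-1)` hold for `Z`; for example the `p`-adic
multiple zeta values, if the statement of the question is known for `u_0, …, u_(i-1)`.

(1) All relations of degree at most `D` between the real multiple zeta values of `u_0, …, u_(i-1)` and of the `w_a`,
`a ∈ {a_1 < … < a_k}`, `a_1 ≥ max(j₀, D, i)`, with integer coefficients of absolute value at most `a ^ (first argument of w_a)`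
for all these `a`, hold for `Z`, even with arbitrary elements in place of the `Z(w_a)`.

(2) For each polynomial `f` with rational coefficients in `i + k` variables there is `l(f)`, which does not depend on `u`, `w` and
`Z`, such that `f(ζ(u_0), …, ζ(w_(a_1)), …) = 0` implies `f(Z(u_0), …, Z(w_(a_1)), …) = 0`, and this with arbitrary elements in
place of the `Z(w_a)`, for all `a_1 < … < a_k`, `a_1 ≥ max(l(f), j₀)`.

(3) If the `u_b` are of the form `2a, …, 2a`, this is unconditional for the functions `Z` with the stuffle product and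
`Z(2 m) = 0` for `m ≥ 1`, so for the `p`-adic multiple zeta values, for all primes `p` at once.

The hand-ins `BadHyperplanes` and `PolynomialArguments` of this page (helper553) treat indices of one size, with constant first
arguments of bounded weight. Here the sizes of the indices of a relation are arbitrary and the constants are any multiple zeta
values. The proof uses the theorem `Pool.Agent.U553.LY.delLyn` of helper553 (of `t + 1` Lyndon indices of one size one is free
over `t` complex constants); the earlier values are constants for the later ones.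
-/

set_option autoImplicit false

namespace Pool.Agent.Results.MP_03df5c_nt.PredictableSequences

open Pool.Agent.Results.MP_03df5c_nt.AlmostAllArguments (mzv mzv_fun Admissible HasStuffle Transfers st_iff)
open Pool.Agent.U534.FreeSeq (Free stage seq_gen)
open MvPolynomial

/-- Lyndon indices for the order `1 > 2 > 3 > …` of the letters: not empty, and before the proper suffixes -/
def IsLyndon (w : List ℕ) : Prop :=
  w ≠ [] ∧ ∀ u v : List ℕ, w = u ++ v → u ≠ [] → v ≠ [] → List.Lex (· > ·) w v

/-- the first argument -/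
def first (w : List ℕ) : ℕ := w.headD 0

/-- At most `2 j` admissible Lyndon indices with at most `j` arguments and first argument in `[M, j M]` belong to
`E_j(w_0, …, w_(j-1))`, for all `M ≥ N_j`. -/
def Few (N : ℕ → ℕ) (E : ∀ j, (Fin j → List ℕ) → Set (List ℕ)) : Prop :=
  ∀ (j : ℕ) (τ : Fin j → List ℕ) (M : ℕ), N j ≤ M →
    {w | w ∈ E j τ ∧ IsLyndon w ∧ Admissible w ∧ w.length ≤ j ∧ M ≤ first w ∧ first w ≤ j * M}.encard ≤ (2 * j : ℕ)

/-- For `j ≥ j₀` the index `w_j` is an admissible Lyndon index which does not belong to `E_j(w_0, …, w_(j-1))`. -/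
def Avoids (E : ∀ j, (Fin j → List ℕ) → Set (List ℕ)) (j₀ : ℕ) (w : ℕ → List ℕ) : Prop :=
  ∀ j, j₀ ≤ j → IsLyndon (w j) ∧ Admissible (w j) ∧ w j ∉ E j fun a => w a

/-- the set of the indices `u_0, …, u_(i-1)` -/
def below (u : ℕ → List ℕ) (i : ℕ) : Set (List ℕ) := {v | ∃ b, b < i ∧ u b = v}

section proofs

/-- the multiple zeta values as complex numbers -/
noncomputable def zc (w : List ℕ) : ℂ := ((mzv w : ℝ) : ℂ)

/-- the exceptional sets -/
def Ex (z : ℕ → ℂ) (j : ℕ) (τ : Fin j → List ℕ) : Set (List ℕ) :=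
  {w | ¬ Free (stage zc z τ) (zc w) j ((j : ℝ) ^ first w)}

lemma le_first {w : List ℕ} (h : IsLyndon w) {m : ℕ} (hm : m ∈ w) : m ≤ first w := by
  obtain ⟨u, v, rfl⟩ := List.append_of_mem hm
  cases u with
  | nil => exact le_rfl
  | cons x u =>
    have h1 := h.2 (x :: u) (m :: v) rfl (by simp) (by simp)
    show m ≤ x
    rw [List.cons_append] at h1
    cases h1 with
    | cons _ => exact le_rfl
    | rel h2 => exact le_of_lt h2

lemma range_of {w : List ℕ} {j M : ℕ} (h : IsLyndon w) (ha : Admissible w) (hl : w.length ≤ j) (h1 : M ≤ first w)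
    (h2 : first w ≤ j * M) : Pool.Agent.U553.LY.Lyn w ∧ Pool.Agent.U553.LY.InR M (j * M) j w := by
  refine ⟨?_, hl, fun m hm => ⟨?_, (le_first h hm).trans h2⟩, fun m hm => ?_⟩
  · rw [Pool.Agent.U553.LY.Lyn_iff]
    exact h
  · cases w with
    | nil => simp at hm
    | cons x w =>
      rcases List.mem_cons.1 hm with rfl | h3
      · exact le_trans (by norm_num) ha.1
      · exact ha.2 m h3
  · cases w with
    | nil => simp at hm
    | cons x w =>
      have h3 : x = m := by simpa using hm
      rw [← h3]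
      exact h1

theorem few_ex : ∃ N : ℕ → ℕ, ∀ z : ℕ → ℂ, Few N (Ex z) := by
  classical
  choose N hN using fun j : ℕ => Pool.Agent.U553.LY.delLyn (j + j + 1) j j 0 (j + j) j ((j : ℝ) ^ j) (fun i => i.elim0)
    (fun i => i.elim0)
  refine ⟨N, fun z j τ M hM => ?_⟩
  by_contra hcon
  have hle := Order.add_one_le_of_lt (not_le.1 hcon)
  obtain ⟨T, hTs, hTc'⟩ := Set.exists_subset_encard_eq hle
  have hTc : T.encard = ((2 * j + 1 : ℕ) : ℕ∞) := by
    rw [hTc']
    push_cast
    rfl
  have hTf : T.Finite := Set.finite_of_encard_eq_coe hTc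
  set S : Finset (List ℕ) := hTf.toFinset with hS
  have hSc : S.card = 2 * j + 1 := by
    have h1 := hTf.encard_eq_coe_toFinset_card
    rw [hTc] at h1
    exact_mod_cast h1.symm
  have hSm : ∀ w ∈ S, w ∈ Ex z j τ ∧ IsLyndon w ∧ Admissible w ∧ w.length ≤ j ∧ M ≤ first w ∧ first w ≤ j * M :=
    fun w hw => hTs (hTf.mem_toFinset.1 hw)
  obtain ⟨S', h1, h2, h3⟩ := hN j M hM (fun b => stage zc z τ (finSumFinEquiv.symm b)) S (by omega) (fun w hw => by
    obtain ⟨-, e1, e2, e3, e4, e5⟩ := hSm w hw
    exact range_of e1 e2 e3 e4 e5)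
  obtain ⟨s, hs⟩ : S'.Nonempty := by
    rw [← Finset.card_pos]
    omega
  obtain ⟨hsE, -, -, -, -, hsM⟩ := hSm s (h1 hs)
  refine hsE fun P hPD hPH hP0 y => ?_
  set g : Option (Fin j ⊕ Fin j) → (Fin 0 ⊕ Fin (j + j)) ⊕ S' := fun o =>
    o.elim (Sum.inr ⟨s, hs⟩) fun v => Sum.inl (Sum.inr (finSumFinEquiv v)) with hg
  have hgi : Function.Injective g := by
    rintro (_ | v) (_ | v') h
    · rfl
    · simp [hg] at h
    · simp [hg] at h
    · have h4 : finSumFinEquiv v = finSumFinEquiv v' := by simpa [hg] using h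
      rw [finSumFinEquiv.injective h4]
  have hev : ∀ y : S' → ℂ, aeval (Sum.elim (Sum.elim (fun i : Fin 0 => i.elim0)
      fun b => stage zc z τ (finSumFinEquiv.symm b)) y) (rename g P) =
        aeval (fun o => o.elim (y ⟨s, hs⟩) (stage zc z τ)) P := by
    intro y
    rw [aeval_rename]
    congr 2
    funext o
    rcases o with _ | v
    · rfl
    · simp [hg]
  have hH : ((j : ℝ) ^ first s) ≤ (((j : ℝ) ^ j) ^ M) := by
    rcases Nat.eq_zero_or_pos j with rfl | hj
    · simp only [Nat.cast_zero, pow_zero, one_pow]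
      exact pow_le_one₀ le_rfl zero_le_one
    · rw [← pow_mul]
      exact pow_le_pow_right₀ (by exact_mod_cast hj) hsM
  have h4 := h3 (rename g P) ((totalDegree_rename_le _ _).trans hPD)
    (Pool.Agent.U553.DL.height_rename g hgi fun m => (hPH m).trans hH) (by
      have h5 := hev fun s : S' => ((Pool.Agent.Y760.ZG.mz (s : List ℕ) : ℝ) : ℂ)
      rw [h5, ← hP0]
      congr 2
      funext o
      rcases o with _ | v
      · show ((Pool.Agent.Y760.ZG.mz s : ℝ) : ℂ) = zc s
        rw [← mzv_fun]
        rfl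
      · rfl) (fun _ => y)
  have h5 := hev fun _ => y
  rw [h5] at h4
  exact h4

theorem free_of {z : ℕ → ℂ} {j₀ : ℕ} {w : ℕ → List ℕ} (h : Avoids (Ex z) j₀ w) (j : ℕ) (hj : j₀ ≤ j) :
    Free (stage zc z fun a : Fin j => w a) (zc (w j)) j ((j : ℝ) ^ first (w j)) := by
  by_contra hcon
  exact (h j hj).2.2 hcon

/-- polynomials in the last variables, whose coefficients are polynomials in the first ones -/
noncomputable def two {i k : ℕ} : MvPolynomial (Fin i ⊕ Fin k) ℤ →ₐ[ℤ] MvPolynomial (Fin k) (MvPolynomial (Fin i) ℤ) :=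
  aeval (Sum.elim (fun b => C (X b)) X)

theorem two_eval {i k : ℕ} {B : Type} [CommRing B] (c : Fin i → B) (y : Fin k → B) (G : MvPolynomial (Fin i ⊕ Fin k) ℤ) :
    aeval (Sum.elim c y) G = eval y (map (aeval c : MvPolynomial (Fin i) ℤ →ₐ[ℤ] B).toRingHom (two G)) := by
  have h1 : (aeval (Sum.elim c y) : MvPolynomial (Fin i ⊕ Fin k) ℤ →ₐ[ℤ] B).toRingHom =
      ((eval y).comp (map (aeval c : MvPolynomial (Fin i) ℤ →ₐ[ℤ] B).toRingHom)).comp
        (two : MvPolynomial (Fin i ⊕ Fin k) ℤ →ₐ[ℤ] MvPolynomial (Fin k) (MvPolynomial (Fin i) ℤ)).toRingHom := by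
    refine MvPolynomial.ringHom_ext (fun r => ?_) fun o => ?_
    · simp
    · rcases o with b | l
      · simp [two]
      · simp [two]
  exact congrArg (fun f => f G) h1

/-- trivial relations transfer, if the relations between the constants do -/
theorem transfer {i k : ℕ} {A : Type} [CommRing A] (x : Fin i → ℂ) (c : Fin i → A)
    (h : ∀ Q : MvPolynomial (Fin i) ℤ, aeval x Q = 0 → aeval c Q = 0) (G : MvPolynomial (Fin i ⊕ Fin k) ℤ)
    (hG : ∀ y : Fin k → ℂ, aeval (Sum.elim x y) G = 0) (y : Fin k → A) : aeval (Sum.elim c y) G = 0 := by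
  have h1 : map (aeval x : MvPolynomial (Fin i) ℤ →ₐ[ℤ] ℂ).toRingHom (two G) = 0 :=
    MvPolynomial.funext fun y => by rw [← two_eval, hG, map_zero]
  have h2 : map (aeval c : MvPolynomial (Fin i) ℤ →ₐ[ℤ] A).toRingHom (two G) = 0 := by
    ext m
    rw [coeff_map, coeff_zero]
    refine h _ ?_
    have h3 := congrArg (coeff m) h1
    rw [coeff_map, coeff_zero] at h3
    exact h3
  rw [two_eval, h2, map_zero]

lemma aeval_ofReal {σ : Type} (v : σ → ℝ) (Q : MvPolynomial σ ℤ) :
    aeval (fun i => ((v i : ℝ) : ℂ)) Q = ((aeval v Q : ℝ) : ℂ) :=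
  MvPolynomial.aeval_algebraMap_apply (A := ℝ) ℂ v Q

theorem rel {i : ℕ} {u : ℕ → List ℕ} (hu : ∀ b, Admissible (u b)) {A : Type} [CommRing A] [Algebra ℚ A] {Z : List ℕ → A}
    (h : Transfers (below u i) Z) (Q : MvPolynomial (Fin i) ℤ) (hQ : aeval (fun b : Fin i => zc (u b)) Q = 0) :
    aeval (fun b : Fin i => Z (u b)) Q = 0 := by
  let ρ : Fin i → {v : List ℕ // Admissible v ∧ v ∈ below u i} := fun b => ⟨u b, hu b, b, b.2, rfl⟩
  have h1 := h (map (algebraMap ℤ ℚ) (rename ρ Q)) (by
    rw [aeval_map_algebraMap, aeval_rename]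
    have h2 := aeval_ofReal (fun b : Fin i => mzv (u b)) Q
    rw [show (fun b : Fin i => ((mzv (u b) : ℝ) : ℂ)) = fun b : Fin i => zc (u b) from rfl, hQ] at h2
    exact_mod_cast h2.symm)
  rw [aeval_map_algebraMap, aeval_rename] at h1
  exact h1

/-- clearing denominators -/
theorem clear {σ : Type} (f : MvPolynomial σ ℚ) :
    ∃ (d : ℤ) (P : MvPolynomial σ ℤ), d ≠ 0 ∧ map (algebraMap ℤ ℚ) P = C (d : ℚ) * f := by
  classical
  obtain ⟨b, hb⟩ := IsLocalization.exist_integer_multiples_of_finset (nonZeroDivisors ℤ) (f.support.image fun m => f.coeff m)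
  have hb' : ∀ m, ∃ c : ℤ, ((c : ℤ) : ℚ) = ((b : ℤ) : ℚ) * f.coeff m := by
    intro m
    by_cases hm : m ∈ f.support
    · obtain ⟨c, hc⟩ := hb (f.coeff m) (Finset.mem_image_of_mem _ hm)
      refine ⟨c, ?_⟩
      have h1 : algebraMap ℤ ℚ c = (b : ℤ) • f.coeff m := hc
      rw [zsmul_eq_mul] at h1
      exact h1
    · refine ⟨0, ?_⟩
      rw [notMem_support_iff.1 hm]
      simp
  choose c hc using hb'
  refine ⟨b, ∑ m ∈ f.support, monomial m (c m), nonZeroDivisors.ne_zero b.2, ?_⟩
  rw [map_sum]
  conv_rhs => rw [f.as_sum, Finset.mul_sum]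
  refine Finset.sum_congr rfl fun m _ => ?_
  rw [map_monomial, C_mul_monomial]
  congr 1
  exact hc m

theorem height {σ : Type} (P : MvPolynomial σ ℤ) : ∃ H : ℕ, ∀ m, |((P.coeff m : ℤ) : ℝ)| ≤ H := by
  classical
  refine ⟨∑ m ∈ P.support, (P.coeff m).natAbs, fun m => ?_⟩
  by_cases hm : m ∈ P.support
  · have h1 : (P.coeff m).natAbs ≤ ∑ m ∈ P.support, (P.coeff m).natAbs :=
      Finset.single_le_sum (f := fun m => (P.coeff m).natAbs) (fun _ _ => Nat.zero_le _) hm
    have h2 : |((P.coeff m : ℤ) : ℝ)| = ((P.coeff m).natAbs : ℝ) := by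
      rw [Nat.cast_natAbs, Int.cast_abs]
    rw [h2]
    exact_mod_cast h1
  · rw [notMem_support_iff.1 hm, Int.cast_zero, abs_zero]
    exact Nat.cast_nonneg _

end proofs

/-- **Main result.** -/
theorem result :
    ∃ (N : ℕ → ℕ) (l₀ : ∀ i k : ℕ, MvPolynomial (Fin i ⊕ Fin k) ℚ → ℕ), ∀ u : ℕ → List ℕ, (∀ b, Admissible (u b)) →
      ∃ E : ∀ j, (Fin j → List ℕ) → Set (List ℕ), Few N E ∧
      -- growing degrees and coefficients
      (∀ (j₀ : ℕ) (w : ℕ → List ℕ), Avoids E j₀ w →
        ∀ (D i k : ℕ) (a : Fin k → ℕ), StrictMono a → (∀ l, j₀ ≤ a l ∧ D ≤ a l ∧ i ≤ a l) →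
        ∀ G : MvPolynomial (Fin i ⊕ Fin k) ℤ, G.totalDegree ≤ D →
          (∀ l m, |((G.coeff m : ℤ) : ℝ)| ≤ (a l : ℝ) ^ first (w (a l))) →
          aeval (Sum.elim (fun b : Fin i => mzv (u b)) fun l => mzv (w (a l))) G = 0 →
            ∀ (A : Type) [CommRing A] [Algebra ℚ A] (Z : List ℕ → A), Transfers (below u i) Z →
              ∀ y : Fin k → A, aeval (Sum.elim (fun b : Fin i => Z (u b)) y) G = 0) ∧
      -- every polynomial with rational coefficients
      (∀ (j₀ : ℕ) (w : ℕ → List ℕ), Avoids E j₀ w →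
        ∀ (i k : ℕ) (f : MvPolynomial (Fin i ⊕ Fin k) ℚ) (a : Fin k → ℕ), StrictMono a →
          (∀ l, j₀ ≤ a l ∧ l₀ i k f ≤ a l) →
          aeval (Sum.elim (fun b : Fin i => mzv (u b)) fun l => mzv (w (a l))) f = 0 →
            ∀ (A : Type) [CommRing A] [Algebra ℚ A] (Z : List ℕ → A), Transfers (below u i) Z →
              ∀ y : Fin k → A, aeval (Sum.elim (fun b : Fin i => Z (u b)) y) f = 0) ∧
      -- the condition on `Z` is satisfied in the even case
      ((∀ b, ∃ n a, 1 ≤ n ∧ 1 ≤ a ∧ u b = List.replicate n (2 * a)) →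
        ∀ (i : ℕ) (A : Type) [CommRing A] [Algebra ℚ A] (Z : List ℕ → A), HasStuffle Z → (∀ m, 1 ≤ m → Z [2 * m] = 0) →
          Transfers (below u i) Z) := by
  classical
  obtain ⟨N, hN⟩ := few_ex
  choose d P hd hP using fun (i k : ℕ) (f : MvPolynomial (Fin i ⊕ Fin k) ℚ) => clear f
  choose H hH using fun (i k : ℕ) (f : MvPolynomial (Fin i ⊕ Fin k) ℚ) => height (P i k f)
  refine ⟨N, fun i k f => (P i k f).totalDegree + i + H i k f + 1, fun u hu => ?_⟩
  have hA : ∀ (j₀ : ℕ) (w : ℕ → List ℕ), Avoids (Ex fun b => zc (u b)) j₀ w →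
        ∀ (D i k : ℕ) (a : Fin k → ℕ), StrictMono a → (∀ l, j₀ ≤ a l ∧ D ≤ a l ∧ i ≤ a l) →
        ∀ G : MvPolynomial (Fin i ⊕ Fin k) ℤ, G.totalDegree ≤ D →
          (∀ l m, |((G.coeff m : ℤ) : ℝ)| ≤ (a l : ℝ) ^ first (w (a l))) →
          aeval (Sum.elim (fun b : Fin i => mzv (u b)) fun l => mzv (w (a l))) G = 0 →
            ∀ (A : Type) [CommRing A] [Algebra ℚ A] (Z : List ℕ → A), Transfers (below u i) Z →
              ∀ y : Fin k → A, aeval (Sum.elim (fun b : Fin i => Z (u b)) y) G = 0 := by
    intro j₀ w hw D i k a ha hal G hG hH h0 A _ _ Z hZ y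
    have h1 := seq_gen zc (fun b => zc (u b)) w (fun j => (j : ℝ) ^ first (w j)) j₀ (free_of hw) D i k a ha hal G hG hH (by
      have h2 := aeval_ofReal (Sum.elim (fun b : Fin i => mzv (u b)) fun l => mzv (w (a l))) G
      rw [h0, Complex.ofReal_zero] at h2
      rw [← h2]
      congr 2
      funext v
      rcases v with b | l <;> rfl)
    exact transfer (fun b : Fin i => zc (u b)) (fun b : Fin i => Z (u b)) (fun Q hQ => rel hu hZ Q hQ) G h1 y
  refine ⟨Ex fun b => zc (u b), hN _, hA, fun j₀ w hw i k f a ha hal h0 A _ _ Z hZ y => ?_,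
    fun he i A _ _ Z hZ h0 f hf => ?_⟩
  · have hal : ∀ l, j₀ ≤ a l ∧ (P i k f).totalDegree + i + H i k f + 1 ≤ a l := hal
    have hev : ∀ (B : Type) [CommRing B] [Algebra ℚ B] (v : Fin i ⊕ Fin k → B),
        aeval v (P i k f) = algebraMap ℚ B (d i k f : ℚ) * aeval v f := by
      intro B _ _ v
      rw [← aeval_map_algebraMap ℚ v (P i k f), hP, map_mul, aeval_C]
    have h1 := hA j₀ w hw (P i k f).totalDegree i k a ha (fun l => by
      have := hal l
      exact ⟨this.1, by omega, by omega⟩) (P i k f) le_rfl (fun l m => by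
        have h2 := (hal l).2
        have h3 : 1 ≤ first (w (a l)) := by
          have h4 := (hw (a l) (hal l).1).2.1
          revert h4
          cases w (a l) with
          | nil => intro h4; exact h4.elim
          | cons x v => intro h4; exact le_trans (by norm_num) h4.1
        have h5 : (1 : ℝ) ≤ (a l : ℝ) := by
          have : 1 ≤ a l := by omega
          exact_mod_cast this
        have h6 : (H i k f : ℝ) ≤ (a l : ℝ) := by
          have : H i k f ≤ a l := by omega
          exact_mod_cast this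
        calc |(((P i k f).coeff m : ℤ) : ℝ)| ≤ H i k f := hH i k f m
          _ ≤ (a l : ℝ) := h6
          _ = (a l : ℝ) ^ 1 := (pow_one _).symm
          _ ≤ (a l : ℝ) ^ first (w (a l)) := pow_le_pow_right₀ h5 h3) (by rw [hev, h0, mul_zero]) A Z hZ y
    rw [hev] at h1
    have h2 : algebraMap ℚ A ((d i k f : ℚ)⁻¹) * (algebraMap ℚ A (d i k f : ℚ) *
        aeval (Sum.elim (fun b : Fin i => Z (u b)) y) f) = 0 := by rw [h1, mul_zero]
    rwa [← mul_assoc, ← map_mul, inv_mul_cancel₀ (by exact_mod_cast hd i k f), map_one, one_mul] at h2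
  · rw [mzv_fun] at hf
    exact Pool.Agent.N734.MZ.even_transfer (fun v : {v : List ℕ // Admissible v ∧ v ∈ below u i} => v.1)
      (fun v => by
        obtain ⟨b, -, hb⟩ := v.2.2
        obtain ⟨n, a, h1, h2, h3⟩ := he b
        exact ⟨n, a, h1, h2, by rw [← hb, h3]⟩) Z ((st_iff Z).1 hZ) h0 f hf

end Pool.Agent.Results.MP_03df5c_nt.PredictableSequences
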